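import Mathlib
import Pool.Agent.TH724.TC.Upper

/-!
# Conjugacy of transitive homeomorphisms of the Cantor set is bi-reducible with graph isomorphism

Lower bound. Let `γ` be a graph on `ℕ`. Consider the bi-infinite sequences of symbols from
`ℕ ∪ {∞} ∪ {hub}` (one-point compactification of the discrete set `ℕ ∪ {hub}`), such that every
maximal block without the hub has at most one change of symbols, from `v` to `w` where `v`, `w` are
adjacent in `γ` if they are in `ℕ`, and is followed and preceded by blocks of hubs which are at
least as long. This is a perfect compact space and the shift is transitive on it. The fixed points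
of the shift are the constant sequences. The constant sequence `∞` is the limit of the constant
sequences `v`, the constant sequence hub has homoclinic points, and the others do not; and `v`, `w`
are adjacent if and only if there is a point asymptotic to `v` in the past and to `w` in the future.
So the graph can be recovered from the conjugacy class of the shift. The space is identified
with the Cantor set by reading off the bits at the splitting levels.

Upper bound. The relation `T A ∩ B = ∅` on the countable set of clopen sets determines the conjugacy
class of `T`, and a binary relation can be coded by a graph.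
-/

set_option autoImplicit false

open Set Topology
open Pool.Agent.TH724.TC (Tg toCM)

namespace Pool.Agent.Results.MP_f7d718_lc.TransitiveComplete

/-- The Cantor set. -/
abbrev Cantor : Type := ℕ → Bool

/-- The topology of uniform convergence (the compact-open topology) on the homeomorphism group of
the Cantor set. -/
def homeoTopology : TopologicalSpace (Cantor ≃ₜ Cantor) :=
  TopologicalSpace.induced (fun T => (⟨T, T.continuous⟩ : C(Cantor, Cantor))) inferInstance

/-- Topological transitivity. -/
def IsTransitive (T : Cantor ≃ₜ Cantor) : Prop :=
  ∀ U V : Set Cantor, IsOpen U → IsOpen V → U.Nonempty → V.Nonempty →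
    ∃ n : ℤ, ((T ^ n) '' U ∩ V).Nonempty

/-- The space of the transitive homeomorphisms. -/
abbrev Trans : Type := {T : Cantor ≃ₜ Cantor // IsTransitive T}

/-- The Borel structure of `Trans`, as a subset of the homeomorphism group. -/
def borelTrans : MeasurableSpace Trans :=
  (@borel (Cantor ≃ₜ Cantor) homeoTopology).comap Subtype.val

/-- Topological conjugacy of transitive homeomorphisms. -/
def Conj (S T : Trans) : Prop := ∃ h : Cantor ≃ₜ Cantor, S.1 = h * T.1 * h⁻¹

/-- The space of the graphs with vertex set `ℕ`. -/
abbrev Graphs : Type := {x : ℕ → ℕ → Bool // (∀ m n, x m n = x n m) ∧ ∀ n, x n n = false}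

/-- The Borel structure of `Graphs`, as a subset of `2^(ℕ × ℕ)`. -/
def borelGraphs : MeasurableSpace Graphs := (borel (ℕ → ℕ → Bool)).comap Subtype.val

/-- Isomorphism of graphs. -/
def GraphIso (x y : Graphs) : Prop := ∃ σ : Equiv.Perm ℕ, ∀ m n, y.1 (σ m) (σ n) = x.1 m n

/-- Topological conjugacy of the topologically transitive homeomorphisms of the Cantor set is
Borel bi-reducible with isomorphism of countable graphs. -/
theorem result :
    (∃ f : Graphs → Trans, @Measurable _ _ borelGraphs borelTrans f ∧
      ∀ x y, GraphIso x y ↔ Conj (f x) (f y)) ∧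
    (∃ g : Trans → Graphs, @Measurable _ _ borelTrans borelGraphs g ∧
      ∀ S T, Conj S T ↔ GraphIso (g S) (g T)) := by
  classical
  constructor
  · refine ⟨fun x => ⟨Tg x.1, Pool.Agent.TH724.TC.isTransitive_Tg x.1⟩, ?_, ?_⟩
    · unfold borelTrans
      rw [measurable_comap_iff]
      let m0 : MeasurableSpace (ℕ → ℕ → Bool) := borel _
      have b0 : BorelSpace (ℕ → ℕ → Bool) := ⟨rfl⟩
      have h1 := Pool.Agent.TH724.TC.measurable_Tg
      have h2 : @Measurable Graphs (ℕ → ℕ → Bool) borelGraphs m0 Subtype.val :=
        comap_measurable _
      exact h1.comp h2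
    · intro x y
      constructor
      · rintro ⟨σ, hσ⟩
        obtain ⟨h, hh⟩ := Pool.Agent.TH724.TC.conj_iff.2 (Pool.Agent.TH724.TC.conj_of_iso hσ)
        refine ⟨h⁻¹, ?_⟩
        change Tg x.1 = h⁻¹ * Tg y.1 * h⁻¹⁻¹
        rw [hh]
        group
      · rintro ⟨h, hh⟩
        have hh' : Tg x.1 = h * Tg y.1 * h⁻¹ := hh
        obtain ⟨H, hH⟩ := (Pool.Agent.TH724.TC.conj_iff (γ := x.1) (γ' := y.1)).1 ⟨h⁻¹, by
          rw [hh']
          group⟩
        exact Pool.Agent.TH724.TC.iso_of_conj x.2.2 y.2.2 H hH
  · -- the clopen sets
    have hc : Countable (TopologicalSpace.Clopens Cantor) :=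
      TopologicalSpace.Clopens.countable_iff_secondCountable.2 inferInstance
    have hi : Infinite (TopologicalSpace.Clopens Cantor) := by
      have h1 : ∀ n : ℕ, IsClopen {x : Cantor | x n = true} := fun n =>
        (isClopen_discrete ({true} : Set Bool)).preimage (continuous_apply n)
      refine Infinite.of_injective (fun n : ℕ => (⟨{x : Cantor | x n = true}, h1 n⟩ :
        TopologicalSpace.Clopens Cantor)) fun m n hmn => ?_
      have h2 : {x : Cantor | x m = true} = {x : Cantor | x n = true} :=
        congrArg TopologicalSpace.Clopens.carrier hmn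
      by_contra hne
      have h3 : (fun k => decide (k = m) : Cantor) ∈ {x : Cantor | x m = true} := by
        change decide (m = m) = true
        simp
      rw [h2] at h3
      change decide (n = m) = true at h3
      rw [decide_eq_true_eq] at h3
      exact hne h3.symm
    obtain ⟨e⟩ : Nonempty (ℕ ≃ TopologicalSpace.Clopens Cantor) := by
      have := Classical.choice (nonempty_denumerable (TopologicalSpace.Clopens Cantor))
      exact ⟨(Denumerable.eqv _).symm⟩
    obtain ⟨u⟩ : Nonempty (ℕ ≃ Pool.Agent.TH724.TC.V) := by
      have := Classical.choice (nonempty_denumerable Pool.Agent.TH724.TC.V)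
      exact ⟨(Denumerable.eqv _).symm⟩
    let q : Trans → ℕ → ℕ → Bool := fun T i j =>
      decide (Pool.Agent.TH724.TC.Dis T.1 (e i) (e j))
    let g : Trans → Graphs := fun T => ⟨fun m n => Pool.Agent.TH724.TC.adj (q T) (u m) (u n),
      fun m n => Pool.Agent.TH724.TC.adj_symm _ _ _, fun n => Pool.Agent.TH724.TC.adj_irrefl _ _⟩
    refine ⟨g, ?_, ?_⟩
    · unfold borelGraphs
      rw [measurable_comap_iff]
      let m1 : MeasurableSpace Trans := borelTrans
      have hq : ∀ i j, Measurable (fun T => q T i j) := by
        intro i j
        have h1 : MeasurableSet {T : Trans | Pool.Agent.TH724.TC.Dis T.1 (e i) (e j)} := by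
          refine ⟨{T | Pool.Agent.TH724.TC.Dis T (e i) (e j)}, ?_, rfl⟩
          apply MeasurableSpace.measurableSet_generateFrom
          change @IsOpen _ homeoTopology _
          have h2 : IsOpen {f : C(Cantor, Cantor) | MapsTo f (e i : Set Cantor) (e j : Set Cantor)ᶜ} :=
            ContinuousMap.isOpen_setOfPred_mapsTo (e i).isClopen.isClosed.isCompact
              (e j).isClopen.compl.isOpen
          exact isOpen_induced h2
        apply measurable_to_countable'
        intro b
        cases b
        · convert h1.compl using 1
          ext T
          change decide _ = false ↔ ¬ _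
          rw [decide_eq_false_iff_not]
          rfl
        · convert h1 using 1
          ext T
          change decide _ = true ↔ _
          rw [decide_eq_true_eq]
          rfl
      rw [← (inferInstance : BorelSpace (ℕ → ℕ → Bool)).measurable_eq]
      refine measurable_pi_lambda _ fun m => measurable_pi_lambda _ fun n => ?_
      change Measurable fun T => Pool.Agent.TH724.TC.adj (q T) (u m) (u n)
      cases u m <;> cases u n <;> first | exact hq _ _ | exact measurable_const
    · intro S T
      constructor
      · rintro ⟨h, hh⟩
        obtain ⟨φ, hφ⟩ := Pool.Agent.TH724.TC.dis_of_conj h hh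
        -- `φ` goes from `T` to `S`
        let σ : Equiv.Perm ℕ := (e.trans φ).trans e.symm
        have h1 : ∀ i j, q S (σ i) (σ j) = q T i j := by
          intro i j
          simp only [q, σ, Equiv.trans_apply, Equiv.apply_symm_apply]
          exact decide_eq_decide.2 (hφ _ _)
        obtain ⟨ψ, hψ⟩ := Pool.Agent.TH724.TC.adj_of_rel_iso σ h1
        refine ⟨((u.trans ψ).trans u.symm).symm, fun m n => ?_⟩
        change Pool.Agent.TH724.TC.adj (q T) (u _) (u _) = Pool.Agent.TH724.TC.adj (q S) (u m) (u n)
        rw [← hψ]
        simp
      · rintro ⟨σ, hσ⟩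
        let ψ : Pool.Agent.TH724.TC.V ≃ Pool.Agent.TH724.TC.V := (u.symm.trans σ).trans u
        have h1 : ∀ x y, Pool.Agent.TH724.TC.adj (q T) (ψ x) (ψ y) =
            Pool.Agent.TH724.TC.adj (q S) x y := by
          intro x y
          have := hσ (u.symm x) (u.symm y)
          change Pool.Agent.TH724.TC.adj (q T) (u (σ (u.symm x))) (u (σ (u.symm y))) =
            Pool.Agent.TH724.TC.adj (q S) (u (u.symm x)) (u (u.symm y)) at this
          rw [Equiv.apply_symm_apply, Equiv.apply_symm_apply] at this
          exact this
        obtain ⟨τ, hτ⟩ := Pool.Agent.TH724.TC.rel_iso_of_adj ψ h1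
        let φ : TopologicalSpace.Clopens Cantor ≃ TopologicalSpace.Clopens Cantor :=
          (e.symm.trans τ).trans e
        have h2 : ∀ A B, Pool.Agent.TH724.TC.Dis T.1 (φ A) (φ B) ↔
            Pool.Agent.TH724.TC.Dis S.1 A B := by
          intro A B
          have := hτ (e.symm A) (e.symm B)
          simp only [q, Equiv.apply_symm_apply] at this
          exact decide_eq_decide.1 this
        obtain ⟨h, hh⟩ := Pool.Agent.TH724.TC.conj_of_dis φ h2
        refine ⟨h⁻¹, ?_⟩
        rw [hh]
        group

end Pool.Agent.Results.MP_f7d718_lc.TransitiveComplete
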